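import Pool.Agent.H21.AG.GQ
import Pool.Agent.H97.FB.AN1

/-! # [H21 AG G1] The values of the composite series, the hypotheses `RHyp` -/

namespace Pool.Agent.H21.AG

open Finset Polynomial Pool.Agent.H72.ES Pool.Agent.H87.SA Pool.Agent.H87.SA2 Pool.Agent.H52.AC
  Pool.Agent.H97.GA Pool.Agent.H97.FB

variable {n m g Δ : ℕ} {f : ℤ[X][X]} {δ : Fin g → ℕ}

theorem XB_one {h : ℤ[X][X]} (pd : PData h n) {a : ℕ} (ha : 1 ≤ a) : 1 ≤ XB pd a := by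
  unfold XB
  have h1 : (1 : ℝ) ≤ ((pd.q * pd.e ^ 2 : ℕ) : ℝ) := by
    have h1 := pd.e_pos
    have h2 := pd.q_pos
    exact_mod_cast Nat.one_le_iff_ne_zero.2 (by positivity)
  have h2 : (1 : ℝ) ≤ (a : ℝ) ^ ((1 : ℝ) / pd.e) := by
    refine Real.one_le_rpow (by exact_mod_cast ha) ?_
    positivity
  nlinarith

private theorem evz_sum {h : ℝ} {T : ℂ} (hh : 0 ≤ h) (hT : ‖T‖ ≤ h) {ι : Type} (s : Finset ι)
    (F : ι → PowerSeries ℂ) (hF : ∀ i ∈ s, Gr h (F i)) :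
    Gr h (∑ i ∈ s, F i) ∧ evz T (∑ i ∈ s, F i) = ∑ i ∈ s, evz T (F i) := by
  classical
  induction s using Finset.induction_on with
  | empty =>
    rw [sum_empty, sum_empty]
    have h0 : (0 : PowerSeries ℂ) = PowerSeries.C (0 : ℂ) := by simp
    rw [h0]
    exact ⟨gr_C _ _, evz_C _ _⟩
  | insert a s ha ih =>
    obtain ⟨i1, i2⟩ := ih fun i hi => hF i (mem_insert_of_mem hi)
    have i3 := hF a (mem_insert_self _ _)
    rw [sum_insert ha, sum_insert ha]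
    exact ⟨gr_add hh i3 i1, by rw [evz_add hT i3 i1, i2]⟩

theorem evC_yG (pd : PData (rv n m f) n) (S : ∀ u, WdP pd.e pd.q (δ u)) (lam : Fin g → ℕ)
    (hδ : ∀ u, 1 ≤ δ u) {a : ℕ} (ha : 1 ≤ a)
    (hyp : ∀ u, 4 * δ u * (pd.q * pd.e ^ 2 : ℕ) * pd.R ≤ XB pd a) (p : Fin g → Fin n) :
    (a : ℂ) ^ m * evC (1 / XB pd a) (yG pd S lam p) =
      ∑ u, (lam u : ℂ) * thA pd m (a + δ u) (p u) := by
  have hX : (0 : ℝ) < XB pd a := lt_of_lt_of_le zero_lt_one (XB_one pd ha)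
  have hh : (0 : ℝ) ≤ 1 / XB pd a := by positivity
  have hT : ‖(((1 / XB pd a : ℝ)) : ℂ)‖ ≤ 1 / XB pd a := by
    rw [Complex.norm_real, Real.norm_of_nonneg hh]
  have hg2 : ∀ u, Gr (1 / XB pd a) (x2P pd m (S u) (p u)) := by
    intro u
    have hr' : 4 * δ u * (pd.q * pd.e ^ 2 : ℕ) * pd.R * (1 / XB pd a) ≤ 1 := by
      rw [mul_one_div]
      exact (div_le_one hX).2 (hyp u)
    obtain ⟨-, -, -, -, -, -, g2, -⟩ := x2P_nrm (m := m) pd (S u) (hδ u) hh hr' (p u)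
    exact g2
  have hg3 : ∀ u ∈ (univ : Finset (Fin g)),
      Gr (1 / XB pd a) ((lam u : PowerSeries ℂ) * x2P pd m (S u) (p u)) := by
    intro u _
    have hlam : (lam u : PowerSeries ℂ) = PowerSeries.C (lam u : ℂ) := by simp
    rw [hlam]
    exact gr_mul hh (gr_C _ _) (hg2 u)
  obtain ⟨e1, e2⟩ := evz_sum hh hT univ _ hg3
  unfold yG
  rw [evC_eq_evz hh e1, e2, mul_sum]
  refine sum_congr rfl fun u _ => ?_
  have hlam : (lam u : PowerSeries ℂ) = PowerSeries.C (lam u : ℂ) := by simp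
  rw [hlam, evz_mul hT (gr_C _ _) (hg2 u), evz_C, ← evC_eq_evz hh (hg2 u),
    ← value2 (m := m) pd (S u) (hδ u) ha (p u) (hyp u)]
  ring

private theorem g1_prod (hn : 1 ≤ n) (hf : f.Monic) (hd : f.natDegree = n)
    (hc : ∀ i, (f.coeff i).natDegree ≤ m * (n - i)) (lam : Fin g → ℕ) {a : ℕ} (ha : 1 ≤ a)
    {Θ : Fin g → Fin n → ℂ} (h : ∀ u, Rts (fa f (a + δ u)) (Θ u))
    (hinj : Function.Injective fun p : Fin g → Fin n => ∑ u, (lam u : ℂ) * Θ u (p u)) :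
    (gN (n ^ g) (n ^ g * (m * n)) (af (FG n m f δ lam)) a).map (Int.castRingHom ℂ) =
      ∏ p : Fin g → Fin n, (X - C ((a : ℂ) ^ (n ^ g * (m * n)) *
        (∑ u, (lam u : ℂ) * (Θ u (p u) / (a : ℂ) ^ m)))) := by
  have haC : (a : ℂ) ≠ 0 := by exact_mod_cast (by omega : a ≠ 0)
  have ham : (a : ℂ) ^ m ≠ 0 := pow_ne_zero _ haC
  obtain ⟨φ, hφ⟩ : ∃ φ : ℤ[X] →+* ℂ, φ = eval₂RingHom (Int.castRingHom ℂ) (1 / (a : ℂ)) :=
    ⟨_, rfl⟩
  have r2 : ∀ u i, (rv n m (shF (δ u) f)).eval₂ φ (Θ u i / (a : ℂ) ^ m) = 0 := by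
    intro u i
    rw [hφ]
    refine rv_fiber (shF_natDegree (δ u) hf hd) (shF_cdeg (δ u) hc) ha ?_
    rw [shF_fa, (h u).1, eval_prod]
    exact prod_eq_zero (mem_univ i) (by simp)
  have hinj' : Function.Injective fun p : Fin g → Fin n =>
      ∑ u, (lam u : ℂ) * (Θ u (p u) / (a : ℂ) ^ m) := by
    intro p p' hp
    apply hinj
    have e2 : ∀ p : Fin g → Fin n, ∑ u, (lam u : ℂ) * (Θ u (p u) / (a : ℂ) ^ m) =
        (∑ u, (lam u : ℂ) * Θ u (p u)) / (a : ℂ) ^ m := fun p => by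
      rw [sum_div]
      exact sum_congr rfl fun u _ => by ring
    have e1 : (∑ u, (lam u : ℂ) * Θ u (p u)) / (a : ℂ) ^ m =
        (∑ u, (lam u : ℂ) * Θ u (p' u)) / (a : ℂ) ^ m := by
      rw [← e2, ← e2]
      exact hp
    exact (div_left_inj' ham).1 e1
  have hs := cpG_split (lam := lam) φ hn
    (fun u => rv_monic (shF_monic (δ u) hf) (shF_natDegree (δ u) hf hd))
    (fun u => rv_natDegree (shF_monic (δ u) hf) (shF_natDegree (δ u) hf hd)) _ r2 hinj'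
  have hFm : (FG n m f δ lam).Monic := cpG_monic
  have hFd : (FG n m f δ lam).natDegree = n ^ g := cpG_natDegree
  have hFc : ∀ j, ((FG n m f δ lam).coeff j).natDegree ≤ n ^ g * (m * n) :=
    cpG_cdeg (fun u => rv_cdeg (shF_cdeg (δ u) hc))
  refine Polynomial.funext fun z => ?_
  obtain ⟨M, hM⟩ : ∃ M, M = n ^ g * (m * n) := ⟨_, rfl⟩
  rw [← hM] at hFc ⊢
  obtain ⟨w, hw⟩ : ∃ w : ℂ, z = (a : ℂ) ^ M * w :=
    ⟨((a : ℂ) ^ M)⁻¹ * z, by rw [mul_inv_cancel_left₀ (pow_ne_zero _ haC)]⟩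
  have h1 := weqe_gen (n ^ g) M 1 (af (FG n m f δ lam)) a (1 / (a : ℂ)) 0 w
    (by rw [mul_one_div, div_self haC])
  rw [sum_eq_zero (fun l _ => by rw [zero_pow (Nat.succ_ne_zero l), zero_mul]), add_zero, add_zero,
    one_pow, mul_one, fv_af hFm hFd hFc, ← hφ, ← eval_map] at h1
  unfold FG at h1
  rw [hs, eval_prod] at h1
  have h2 : ((gN (n ^ g) M (af (FG n m f δ lam)) a).map (Int.castRingHom ℂ)).eval z =
      ei (gN (n ^ g) M (af (FG n m f δ lam)) a) ((a : ℂ) ^ M * w) := by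
    rw [hw]
    unfold ei
    rw [eval_map]
  rw [h2]
  unfold FG
  rw [h1, eval_prod, hw, pow_mul]
  have h3 : ((a : ℂ) ^ M) ^ (n ^ g) = ∏ _i : Fin g → Fin n, (a : ℂ) ^ M := by
    rw [prod_const, card_univ, Fintype.card_fun, Fintype.card_fin, Fintype.card_fin]
  rw [h3, ← prod_mul_distrib]
  refine prod_congr rfl fun i _ => ?_
  rw [eval_sub, eval_X, eval_C, eval_sub, eval_X, eval_C]
  ring

theorem sepG (hn : 1 ≤ n) (hf : f.Monic) (hd : f.natDegree = n)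
    (hc : ∀ i, (f.coeff i).natDegree ≤ m * (n - i)) (lam : Fin g → ℕ) {a : ℕ} (ha : 1 ≤ a)
    {Θ : Fin g → Fin n → ℂ} (h : ∀ u, Rts (fa f (a + δ u)) (Θ u))
    (hinj : Function.Injective fun p : Fin g → Fin n => ∑ u, (lam u : ℂ) * Θ u (p u)) :
    ((gN (n ^ g) (n ^ g * (m * n)) (af (FG n m f δ lam)) a).map (Int.castRingHom ℂ)).Separable := by
  have haC : (a : ℂ) ≠ 0 := by exact_mod_cast (by omega : a ≠ 0)
  rw [g1_prod hn hf hd hc lam ha h hinj, Polynomial.separable_prod_X_sub_C_iff]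
  intro p p' hp
  apply hinj
  have ham : (a : ℂ) ^ m ≠ 0 := pow_ne_zero _ haC
  have h1 := mul_left_cancel₀ (pow_ne_zero _ haC) hp
  have e2 : ∀ p : Fin g → Fin n, ∑ u, (lam u : ℂ) * (Θ u (p u) / (a : ℂ) ^ m) =
      (∑ u, (lam u : ℂ) * Θ u (p u)) / (a : ℂ) ^ m := fun p => by
    rw [sum_div]
    exact sum_congr rfl fun u _ => by ring
  rw [e2, e2] at h1
  exact (div_left_inj' ham).1 h1

theorem rhypG (pd : PData (rv n m f) n) (S : ∀ u, WdP pd.e pd.q (δ u)) (lam : Fin g → ℕ)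
    (R1 : ℝ) (hn : 1 ≤ n) (hf : f.Monic) (hd : f.natDegree = n)
    (hc : ∀ i, (f.coeff i).natDegree ≤ m * (n - i)) (hδ : ∀ u, 1 ≤ δ u) (hΔ : ∀ u, δ u ≤ Δ)
    (hΔ1 : 1 ≤ Δ) (hR : (1 + ∑ u, (lam u : ℝ)) * RB pd m Δ ≤ R1)
    (hinj : Function.Injective (yG pd S lam))
    {a : ℕ} (ha : 1 ≤ a) (hbig : 4 * R1 ≤ XB pd a)
    (hsep : ((gN (n ^ g) (n ^ g * (m * n)) (af (FG n m f δ lam)) a).map
      (Int.castRingHom ℂ)).Separable) :
    RHyp (FG n m f δ lam) (n ^ g) (n ^ g * (m * n))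
      (pdG pd S lam R1 hn hf hd hc hδ hΔ hΔ1 hR hinj) a (XB pd a) where
  monic := cpG_monic
  deg := cpG_natDegree
  d1 := Nat.one_le_pow _ _ hn
  mdeg := cpG_cdeg (fun u => rv_cdeg (shF_cdeg (δ u) hc))
  N1 := ha
  X1 := XB_one pd ha
  pow := XB_pow pd a
  big := hbig
  sep := hsep

end Pool.Agent.H21.AG
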