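import Pool.Agent.H21.AG.GD
import Pool.Agent.H97.FB.ANC

/-! # [H21 AG GC] The composite polynomial of a tuple -/

namespace Pool.Agent.H21.AG

open Finset Polynomial Pool.Agent.H72.ES Pool.Agent.H97.FB

variable {n g : ℕ} {lam : Fin g → ℕ} {gs : Fin g → ℤ[X][X]}

theorem cpG_monic : (cpG n g lam gs).Monic := Matrix.charpoly_monic _

theorem cpG_natDegree : (cpG n g lam gs).natDegree = n ^ g := by
  unfold cpG
  rw [Matrix.charpoly_natDegree_eq_dim, Fintype.card_fun, Fintype.card_fin, Fintype.card_fin]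

private theorem anc_fil : Pool.Agent.H98.FF.Fil (fun (p : ℤ[X]) k => p.natDegree ≤ k) := by
  refine ⟨fun a k l h hkl => h.trans hkl, by simp, by simp, fun a k h => ?_, fun a b k ha hb => ?_,
    fun a b k l ha hb => ?_⟩
  · rwa [natDegree_neg]
  · exact (natDegree_add_le _ _).trans (max_le ha hb)
  · exact natDegree_mul_le.trans (Nat.add_le_add ha hb)

private theorem cmP_deg {h : ℤ[X][X]} {D : ℕ} (hg : ∀ i, (h.coeff i).natDegree ≤ D) (i j : Fin n) :
    (cmP n h i j).natDegree ≤ D := by
  unfold cmP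
  split_ifs
  · simp
  · simp
  · rw [natDegree_neg]
    exact hg _

private theorem cmP_L1 {h : ℤ[X][X]} {A : ℝ} (hA : 1 ≤ A) (hg : ∀ i, L1 (h.coeff i) ≤ A)
    (i j : Fin n) : L1 (cmP n h i j) ≤ A := by
  unfold cmP
  split_ifs
  · rw [L1_one]
    exact hA
  · rw [L1_zero]
    linarith
  · rw [L1_neg]
    exact hg _

theorem cpG_cdeg {D : ℕ} (hg : ∀ u i, ((gs u).coeff i).natDegree ≤ D) (k : ℕ) :
    ((cpG n g lam gs).coeff k).natDegree ≤ n ^ g * D := by
  have h := Pool.Agent.H98.FF.charpoly_deg anc_fil (kmG n g lam gs) (D := D) (fun p p' => ?_) k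
  · simp only [Fintype.card_fun, Fintype.card_fin] at h
    exact h
  · unfold kmG
    refine natDegree_sum_le_of_forall_le _ _ fun u _ => ?_
    refine (natDegree_C_mul_le _ _).trans ?_
    split_ifs
    · rw [mul_one]
      exact cmP_deg (hg u) _ _
    · rw [mul_zero, natDegree_zero]
      exact Nat.zero_le _

private theorem anc_L1_C (a : ℤ) : L1 (C a) = |(a : ℝ)| := by
  have h : (C a : ℤ[X]) = C a * X ^ 0 := by rw [pow_zero, mul_one]
  rw [h, L1_monomial]

private theorem anc_L1_sum {ι : Type} (s : Finset ι) (F : ι → ℤ[X]) :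
    L1 (∑ i ∈ s, F i) ≤ ∑ i ∈ s, L1 (F i) := by
  classical
  induction s using Finset.induction_on with
  | empty => rw [sum_empty, sum_empty, L1_zero]
  | insert a s ha ih =>
    rw [sum_insert ha, sum_insert ha]
    exact (L1_add_le _ _).trans (add_le_add le_rfl ih)

theorem cpG_le {A : ℝ} (hA : 1 ≤ A) (hg : ∀ u i, L1 ((gs u).coeff i) ≤ A)
    (k l : ℕ) : |((((cpG n g lam gs).coeff k).coeff l : ℤ) : ℝ)| ≤
      ((n ^ g).factorial : ℝ) * (1 + (∑ u, (lam u : ℝ)) * A) ^ (n ^ g) := by
  have hA0 : 0 ≤ A := by linarith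
  have h := Pool.Agent.H98.FF.charpoly_size subMul_L1 (kmG n g lam gs) (B := (∑ u, (lam u : ℝ)) * A)
    (by positivity) (fun p p' => ?_) k
  · simp only [Fintype.card_fun, Fintype.card_fin] at h
    refine le_trans ?_ h
    unfold L1
    by_cases hl : l ∈ ((cpG n g lam gs).coeff k).support
    · exact Finset.single_le_sum (f := fun i => |(((((cpG n g lam gs).coeff k)).coeff i : ℤ) : ℝ)|)
        (fun i _ => abs_nonneg _) hl
    · rw [Polynomial.notMem_support_iff.1 hl, Int.cast_zero, abs_zero]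
      exact Finset.sum_nonneg fun i _ => abs_nonneg _
  · unfold kmG
    refine (anc_L1_sum _ _).trans ?_
    rw [sum_mul]
    refine sum_le_sum fun u _ => ?_
    refine (L1_mul_le _ _).trans ?_
    rw [anc_L1_C]
    push_cast
    rw [abs_of_nonneg (Nat.cast_nonneg _)]
    refine mul_le_mul_of_nonneg_left ?_ (Nat.cast_nonneg _)
    split_ifs
    · rw [mul_one]
      exact cmP_L1 hA (hg u) _ _
    · rw [mul_zero, L1_zero]
      exact hA0

private theorem cmP_eig {g : ℤ[X][X]} (hg : g.Monic) (hgd : g.natDegree = n) {S : Type} [CommRing S]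
    (φ : ℤ[X] →+* S) (z : S) (hz : g.eval₂ φ z = 0) (i : Fin n) :
    ∑ j, φ (cmP n g i j) * z ^ (j : ℕ) = z * z ^ (i : ℕ) := by
  by_cases hi : (i : ℕ) + 1 < n
  · rw [Finset.sum_eq_single (⟨(i : ℕ) + 1, hi⟩ : Fin n)]
    · unfold cmP
      rw [if_pos hi, if_pos rfl, map_one, one_mul, ← pow_succ']
    · intro j _ hne
      unfold cmP
      rw [if_pos hi, if_neg (fun hc => hne (Fin.ext hc)), map_zero, zero_mul]
    · intro hc
      exact absurd (mem_univ _) hc
  · have hid : (i : ℕ) + 1 = n := by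
      have := i.2
      omega
    have h1 : ∀ j : Fin n, φ (cmP n g i j) * z ^ (j : ℕ) = -(φ (g.coeff j) * z ^ (j : ℕ)) := by
      intro j
      unfold cmP
      rw [if_neg hi, map_neg, neg_mul]
    rw [Finset.sum_congr rfl fun j _ => h1 j, Finset.sum_neg_distrib,
      Fin.sum_univ_eq_sum_range (fun j => φ (g.coeff j) * z ^ j) n]
    rw [eval₂_eq_sum_range, hgd, Finset.sum_range_succ] at hz
    have h2 : g.coeff n = 1 := by rw [← hgd]; exact hg.coeff_natDegree
    rw [h2, map_one, one_mul] at hz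
    rw [← pow_succ', hid]
    exact (eq_neg_of_add_eq_zero_right hz).symm

theorem cpG_split {S : Type} [CommRing S] [IsDomain S] (φ : ℤ[X] →+* S) (hn : 1 ≤ n)
    (hg : ∀ u, (gs u).Monic) (hgd : ∀ u, (gs u).natDegree = n)
    (x : Fin g → Fin n → S) (h : ∀ u i, (gs u).eval₂ φ (x u i) = 0)
    (hinj : Function.Injective fun p : Fin g → Fin n => ∑ u, (lam u : S) * x u (p u)) :
    (cpG n g lam gs).map φ = ∏ p : Fin g → Fin n, (X - C (∑ u, (lam u : S) * x u (p u))) := by
  classical
  have hroot : ∀ q : Fin g → Fin n,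
      (cpG n g lam gs).eval₂ φ (∑ u, (lam u : S) * x u (q u)) = 0 := by
    intro q
    refine Pool.Agent.H98.FF.charpoly_root (kmG n g lam gs) φ
      (fun p : Fin g → Fin n => ∏ v, x v (q v) ^ (p v : ℕ)) (i0 := fun _ => ⟨0, hn⟩)
      (by simp) _ fun p => ?_
    have e1 : ∀ p' : Fin g → Fin n, φ (kmG n g lam gs p p') * ∏ v, x v (q v) ^ (p' v : ℕ) =
        ∑ u, (if p' = Function.update p u (p' u) then (lam u : S) *
          (φ (cmP n (gs u) (p u) (p' u)) * ∏ v, x v (q v) ^ (p' v : ℕ)) else 0) := by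
      intro p'
      unfold kmG
      rw [map_sum, sum_mul]
      refine sum_congr rfl fun u _ => ?_
      have hl : φ (C (lam u : ℤ)) = (lam u : S) := by simp
      rw [map_mul, map_mul, hl]
      split_ifs
      · simp only [map_one]
        ring
      · simp
    simp only [e1]
    rw [sum_comm, sum_mul]
    refine sum_congr rfl fun u _ => ?_
    -- the sum over the vectors which differ from `p` only at `u`
    have e2 : ∑ p' : Fin g → Fin n, (if p' = Function.update p u (p' u) then (lam u : S) *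
          (φ (cmP n (gs u) (p u) (p' u)) * ∏ v, x v (q v) ^ (p' v : ℕ)) else 0) =
        ∑ j : Fin n, (lam u : S) * (φ (cmP n (gs u) (p u) j) *
          ∏ v, x v (q v) ^ (Function.update p u j v : ℕ)) := by
      rw [← sum_filter]
      symm
      refine sum_bij (fun j _ => Function.update p u j) ?_ ?_ ?_ ?_
      · intro j _
        rw [mem_filter]
        exact ⟨mem_univ _, by simp⟩
      · intro j _ j' _ hjj
        have := congrFun hjj u
        simpa using this
      · intro p' hp'
        exact ⟨p' u, mem_univ _, (mem_filter.1 hp').2.symm⟩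
      · intro j _
        simp
    rw [e2, ← mul_sum]
    have e3 : ∀ j : Fin n, ∏ v, x v (q v) ^ (Function.update p u j v : ℕ) =
        x u (q u) ^ (j : ℕ) * ∏ v ∈ univ.erase u, x v (q v) ^ (p v : ℕ) := by
      intro j
      rw [← mul_prod_erase univ _ (mem_univ u), Function.update_self]
      congr 1
      refine prod_congr rfl fun v hv => ?_
      rw [Function.update_of_ne (ne_of_mem_erase hv)]
    simp only [e3]
    have e4 : ∑ j : Fin n, φ (cmP n (gs u) (p u) j) *
        (x u (q u) ^ (j : ℕ) * ∏ v ∈ univ.erase u, x v (q v) ^ (p v : ℕ)) =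
        (∑ j : Fin n, φ (cmP n (gs u) (p u) j) * x u (q u) ^ (j : ℕ)) *
          ∏ v ∈ univ.erase u, x v (q v) ^ (p v : ℕ) := by
      rw [sum_mul]
      exact sum_congr rfl fun j _ => by ring
    rw [e4, cmP_eig (hg u) (hgd u) φ _ (h u (q u)) (p u), mul_assoc (x u (q u)),
      mul_prod_erase univ (fun v => x v (q v) ^ (p v : ℕ)) (mem_univ u)]
    ring
  -- the product of the linear factors divides
  set P := (cpG n g lam gs).map φ with hP
  set Q : S[X] := ∏ p : Fin g → Fin n, (X - C (∑ u, (lam u : S) * x u (p u))) with hQ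
  have hPm : P.Monic := cpG_monic.map φ
  have hQm : Q.Monic := monic_prod_of_monic _ _ fun p _ => monic_X_sub_C _
  have hPd : P.natDegree = n ^ g := by
    rw [hP, cpG_monic.natDegree_map, cpG_natDegree]
  have hQd : Q.natDegree = n ^ g := by
    rw [hQ, natDegree_prod_of_monic _ _ fun p _ => monic_X_sub_C _,
      Finset.sum_congr rfl fun p _ => natDegree_X_sub_C _, Finset.sum_const, Finset.card_univ,
      Fintype.card_fun, Fintype.card_fin, Fintype.card_fin, smul_eq_mul, mul_one]
  have hcard : (univ.image fun p : Fin g → Fin n => ∑ u, (lam u : S) * x u (p u)).card = n ^ g := by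
    rw [card_image_of_injective _ hinj, card_univ, Fintype.card_fun, Fintype.card_fin,
      Fintype.card_fin]
  have hdeg : (P - Q).degree < ((n ^ g : ℕ) : WithBot ℕ) := by
    have h1 : P.degree = ((n ^ g : ℕ) : WithBot ℕ) := by rw [degree_eq_natDegree hPm.ne_zero, hPd]
    have h2 : Q.degree = ((n ^ g : ℕ) : WithBot ℕ) := by rw [degree_eq_natDegree hQm.ne_zero, hQd]
    rw [← h1]
    exact degree_sub_lt_left (h1.trans h2.symm) hPm.ne_zero (by rw [hPm.leadingCoeff, hQm.leadingCoeff])
  have hzero : P - Q = 0 := by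
    refine eq_zero_of_degree_lt_of_eval_finset_eq_zero
      (univ.image fun p : Fin g → Fin n => ∑ u, (lam u : S) * x u (p u)) (by rw [hcard]; exact hdeg) ?_
    intro y hy
    obtain ⟨p, _, rfl⟩ := mem_image.1 hy
    rw [eval_sub, hP, eval_map, hroot, hQ, eval_prod, zero_sub, neg_eq_zero]
    exact Finset.prod_eq_zero (mem_univ p) (by rw [eval_sub, eval_X, eval_C, sub_self])
  exact sub_eq_zero.1 hzero

end Pool.Agent.H21.AG
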