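import Pool.Agent.H97.FB.AND
import Pool.Agent.H97.FC.Defs

/-!
# [H21 AG] The anchor of a `g`-tuple of fibres: definitions (helper21)

Generalisation of `Pool/Agent/H97/FB/AN*.lean` (pairs) to tuples of any length `g`.
Base point `N`, shifts `δ u = a u - N ≥ 1`, all at most `Δ`.
`kmG`, `cpG`: the matrix of `∑_u lam u Y_u` on the tensor product, its characteristic polynomial; the roots are
`∑_u lam u x_u(p u)`, `p : Fin g → Fin n`.
`FG n m f δ lam`: the composite polynomial of the fibres `x + δ u`; `yG`: the composite series.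
`DiagM` (`Pool/Agent/H97/FC/Defs.lean`) is the structure which is delivered by `exists_anchM`.
-/

namespace Pool.Agent.H21.AG

open Finset Polynomial Pool.Agent.H72.ES Pool.Agent.H87.SA Pool.Agent.H87.SA2 Pool.Agent.H87.AX
  Pool.Agent.H52.AC Pool.Agent.H97.GA Pool.Agent.H97.FB

/-- the matrix of `∑_u lam u Y_u` -/
noncomputable def kmG (n g : ℕ) (lam : Fin g → ℕ) (gs : Fin g → ℤ[X][X]) :
    Matrix (Fin g → Fin n) (Fin g → Fin n) ℤ[X] := fun p p' =>
  ∑ u, C (lam u : ℤ) * (cmP n (gs u) (p u) (p' u) * (if p' = Function.update p u (p' u) then 1 else 0))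

/-- the composite polynomial, with the roots `∑_u lam u x_u(p u)` -/
noncomputable def cpG (n g : ℕ) (lam : Fin g → ℕ) (gs : Fin g → ℤ[X][X]) : ℤ[X][X] :=
  (kmG n g lam gs).charpoly

/-- the composite polynomial of the fibres over `x + δ u` -/
noncomputable def FG (n m : ℕ) {g : ℕ} (f : ℤ[X][X]) (δ lam : Fin g → ℕ) : ℤ[X][X] :=
  cpG n g lam (fun u => rv n m (shF (δ u) f))

/-- the series `∑_u lam u x_u(p u)` -/
noncomputable def yG {f : ℤ[X][X]} {n m g : ℕ} (pd : PData (rv n m f) n) {δ : Fin g → ℕ}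
    (S : ∀ u, WdP pd.e pd.q (δ u)) (lam : Fin g → ℕ) (p : Fin g → Fin n) : PowerSeries ℂ :=
  ∑ u, (lam u : PowerSeries ℂ) * x2P pd m (S u) (p u)

end Pool.Agent.H21.AG
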