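import Mathlib

/-! # [H21 AG GL] The choice of `lam` for a tuple

`lam u = L^u`. For a pair of different vectors `p, p'` the polynomial `∑_u (θ u (p u) - θ u (p' u)) X^u` is not zero
and has degree `< g`, so at most `g` roots; there are at most `(n^g)^2` pairs, so some `L` in `Icc 1 (g (n^g)^2 + 1)` is
not a root of any of them. -/

namespace Pool.Agent.H21.AG

open Finset Polynomial

theorem exists_lamG (n g : ℕ) (θ : Fin g → Fin n → ℂ) (h : ∀ u, Function.Injective (θ u)) :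
    ∃ lam : Fin g → ℕ, (∀ u, 1 ≤ lam u) ∧ (∀ u, lam u ≤ (g * (n ^ g) ^ 2 + 1) ^ g) ∧
      Function.Injective fun p : Fin g → Fin n => ∑ u, (lam u : ℂ) * θ u (p u) := by
  classical
  obtain ⟨Q, hQ⟩ : ∃ Q : (Fin g → Fin n) × (Fin g → Fin n) → ℂ[X], ∀ p, Q p =
      ∑ u : Fin g, C (θ u (p.1 u) - θ u (p.2 u)) * X ^ (u : ℕ) := ⟨_, fun _ => rfl⟩
  have hcoef : ∀ p (u : Fin g), (Q p).coeff u = θ u (p.1 u) - θ u (p.2 u) := by
    intro p u
    rw [hQ, finsetSum_coeff]
    simp only [coeff_C_mul, coeff_X_pow]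
    rw [sum_eq_single u]
    · simp
    · intro v _ hv
      have : ¬ ((u : ℕ) = v) := fun h' => hv (Fin.ext h'.symm)
      simp [this]
    · intro h'
      exact absurd (mem_univ _) h'
  have hne : ∀ p : (Fin g → Fin n) × (Fin g → Fin n), p.1 ≠ p.2 → Q p ≠ 0 := by
    intro p hp h0
    apply hp
    funext u
    apply h u
    have h1 := hcoef p u
    rw [h0, coeff_zero] at h1
    exact (sub_eq_zero.1 h1.symm)
  have hdeg : ∀ p, (Q p).natDegree ≤ g := by
    intro p
    rw [hQ]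
    refine natDegree_sum_le_of_forall_le _ _ fun u _ => ?_
    exact (natDegree_C_mul_X_pow_le _ _).trans u.2.le
  set P : Finset ((Fin g → Fin n) × (Fin g → Fin n)) := univ.filter (fun p => p.1 ≠ p.2) with hP
  set E : (Fin g → Fin n) × (Fin g → Fin n) → Finset ℕ := fun p =>
    (Icc 1 (g * (n ^ g) ^ 2 + 1)).filter (fun L => (Q p).eval (L : ℂ) = 0) with hE
  have hcard : ∀ p ∈ P, (E p).card ≤ g := by
    intro p hp
    rw [hP, mem_filter] at hp
    have h1 : ((E p).image fun L : ℕ => (L : ℂ)) ⊆ (Q p).roots.toFinset := by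
      intro z hz
      obtain ⟨L, hL, rfl⟩ := mem_image.1 hz
      rw [Multiset.mem_toFinset, mem_roots (hne p hp.2)]
      rw [hE, mem_filter] at hL
      exact hL.2
    have h2 := card_le_card h1
    rw [card_image_of_injective _ Nat.cast_injective] at h2
    exact h2.trans ((Multiset.toFinset_card_le _).trans ((card_roots' _).trans (hdeg p)))
  have hPc : P.card ≤ (n ^ g) ^ 2 := by
    refine (card_le_univ _).trans ?_
    rw [Fintype.card_prod, Fintype.card_fun, Fintype.card_fin, Fintype.card_fin]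
    apply le_of_eq
    ring
  have hB : (P.biUnion E).card ≤ g * (n ^ g) ^ 2 := by
    refine (card_biUnion_le_card_mul P E g hcard).trans ?_
    rw [mul_comm]
    exact Nat.mul_le_mul_left _ hPc
  have hex : ∃ L ∈ Icc 1 (g * (n ^ g) ^ 2 + 1), L ∉ P.biUnion E := by
    apply exists_mem_notMem_of_card_lt_card
    rw [Nat.card_Icc]
    omega
  obtain ⟨L, hl, hn⟩ := hex
  rw [mem_Icc] at hl
  refine ⟨fun u => L ^ (u : ℕ), fun u => Nat.one_le_pow _ _ hl.1, fun u => ?_, ?_⟩
  · calc L ^ (u : ℕ) ≤ L ^ g := Nat.pow_le_pow_right hl.1 u.2.le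
      _ ≤ _ := Nat.pow_le_pow_left hl.2 g
  intro p p' hpp
  by_contra hne'
  apply hn
  rw [mem_biUnion]
  refine ⟨(p, p'), ?_, ?_⟩
  · rw [hP, mem_filter]
    exact ⟨mem_univ _, hne'⟩
  · rw [hE, mem_filter]
    refine ⟨mem_Icc.2 hl, ?_⟩
    rw [hQ, eval_finsetSum]
    simp only [eval_mul, eval_C, eval_pow, eval_X]
    have h3 : ∑ u : Fin g, (θ u (p u) - θ u (p' u)) * (L : ℂ) ^ (u : ℕ) =
        ∑ u : Fin g, ((L ^ (u : ℕ) : ℕ) : ℂ) * θ u (p u) -
          ∑ u : Fin g, ((L ^ (u : ℕ) : ℕ) : ℂ) * θ u (p' u) := by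
      rw [← sum_sub_distrib]
      refine sum_congr rfl fun u _ => ?_
      push_cast
      ring
    rw [h3]
    exact sub_eq_zero.2 hpp

end Pool.Agent.H21.AG
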