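import Mathlib

/-! # [H21 AG GN] The numbers of the anchor of a tuple (proof as in `Pool/Agent/H97/FB/ANN.lean`) -/

namespace Pool.Agent.H21.AG

/-- the bound for the factors `lam u` -/
def LamG (n g : ℕ) : ℕ := g * (g * (n ^ g) ^ 2 + 1) ^ g

/-- the bound for the coefficients and for the growth -/
def R1G (n m g B δ : ℕ) : ℕ :=
  (1 + LamG n g) * (2 ^ (m + 3) * δ * (B * n.factorial ^ 2) * B) + (n ^ g).factorial *
    (1 + LamG n g * ((m * n + 1) * ((m * n + 1) * B * (1 + δ) ^ (m * n)))) ^ (n ^ g)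

private def PB (f : ℕ → ℕ → ℕ) : Prop :=
  ∃ k : ℕ, ∀ B δ : ℕ, 2 ≤ B → 1 ≤ δ → f B δ ≤ (δ * B) ^ k

private lemma two_le_mul' {B δ : ℕ} (hB : 2 ≤ B) (hδ : 1 ≤ δ) : 2 ≤ δ * B := by nlinarith

private lemma pb_const (c : ℕ) : PB (fun _ _ => c) :=
  ⟨c, fun _ _ hB hδ => (Nat.lt_two_pow_self).le.trans (Nat.pow_le_pow_left (two_le_mul' hB hδ) c)⟩

private lemma pb_b : PB (fun B _ => B) := ⟨1, fun B δ hB hδ => by
  rw [pow_one]
  exact Nat.le_mul_of_pos_left _ hδ⟩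

private lemma pb_d : PB (fun _ δ => δ) := ⟨1, fun B δ hB hδ => by
  rw [pow_one]
  exact Nat.le_mul_of_pos_right _ (by omega)⟩

private lemma pb_add {f g : ℕ → ℕ → ℕ} (hf : PB f) (hg : PB g) :
    PB (fun B δ => f B δ + g B δ) := by
  obtain ⟨k, hk⟩ := hf
  obtain ⟨l, hl⟩ := hg
  refine ⟨k + l + 1, fun B δ hB hδ => ?_⟩
  have h2 := two_le_mul' hB hδ
  have h1 : (δ * B) ^ k ≤ (δ * B) ^ (k + l) := Nat.pow_le_pow_right (by omega) (by omega)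
  have h3 : (δ * B) ^ l ≤ (δ * B) ^ (k + l) := Nat.pow_le_pow_right (by omega) (by omega)
  calc f B δ + g B δ ≤ (δ * B) ^ (k + l) + (δ * B) ^ (k + l) :=
        Nat.add_le_add ((hk B δ hB hδ).trans h1) ((hl B δ hB hδ).trans h3)
    _ = (δ * B) ^ (k + l) * 2 := by ring
    _ ≤ (δ * B) ^ (k + l) * (δ * B) := Nat.mul_le_mul_left _ h2
    _ = (δ * B) ^ (k + l + 1) := (pow_succ _ _).symm

private lemma pb_mul {f g : ℕ → ℕ → ℕ} (hf : PB f) (hg : PB g) :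
    PB (fun B δ => f B δ * g B δ) := by
  obtain ⟨k, hk⟩ := hf
  obtain ⟨l, hl⟩ := hg
  refine ⟨k + l, fun B δ hB hδ => ?_⟩
  rw [pow_add]
  exact Nat.mul_le_mul (hk B δ hB hδ) (hl B δ hB hδ)

private lemma pb_pow {f : ℕ → ℕ → ℕ} (hf : PB f) (j : ℕ) : PB (fun B δ => f B δ ^ j) := by
  obtain ⟨k, hk⟩ := hf
  refine ⟨k * j, fun B δ hB hδ => ?_⟩
  rw [pow_mul]
  exact Nat.pow_le_pow_left (hk B δ hB hδ) j

private lemma pb_R1G (n m g : ℕ) : PB (fun B δ => 2 * R1G n m g B δ) := by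
  unfold R1G
  exact pb_mul (pb_const 2) (pb_add
    (pb_mul (pb_const _) (pb_mul (pb_mul (pb_mul (pb_const _) pb_d) (pb_mul pb_b (pb_const _)))
      pb_b))
    (pb_mul (pb_const _) (pb_pow (pb_add (pb_const 1) (pb_mul (pb_const _)
      (pb_mul (pb_const _) (pb_mul (pb_mul (pb_const _) pb_b)
        (pb_pow (pb_add (pb_const 1) pb_d) _))))) _)))

theorem ang_num (n m g c K C1 : ℕ) : ∃ C : ℕ, ∀ B δ a : ℕ, 2 ≤ B → 1 ≤ δ → (δ * B) ^ C ≤ a →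
    1 ≤ a ∧ B ^ C1 ≤ a ∧ ∀ e q : ℕ, 1 ≤ e → e ≤ n.factorial → 1 ≤ q → q ≤ B →
      (2 * (R1G n m g B δ : ℝ)) ^ c ≤ (q * e ^ 2 : ℕ) * (a : ℝ) ^ ((1 : ℝ) / e) ∧
      4 * (R1G n m g B δ : ℝ) ≤ (q * e ^ 2 : ℕ) * (a : ℝ) ^ ((1 : ℝ) / e) ∧
      (K : ℝ) ≤ (q * e ^ 2 : ℕ) * (a : ℝ) ^ ((1 : ℝ) / e) ∧
      (1 : ℝ) ≤ (q * e ^ 2 : ℕ) * (a : ℝ) ^ ((1 : ℝ) / e) ∧
      (q * e ^ 2 : ℕ) * (a : ℝ) ^ ((1 : ℝ) / e) ≤ (a : ℝ) ^ 3 := by
  obtain ⟨K1, hK1⟩ := pb_R1G n m g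
  obtain ⟨D, hD⟩ : ∃ D, D = (K1 + 1) * (c + 2) + K := ⟨_, rfl⟩
  have hD1 : K1 * c ≤ D := by rw [hD]; nlinarith
  have hD2 : K1 + 1 ≤ D := by rw [hD]; nlinarith
  have hD3 : K ≤ D := by rw [hD]; nlinarith
  refine ⟨n.factorial * D + n.factorial ^ 2 + 1 + C1, ?_⟩
  intro B δ a hB hδ ha
  obtain ⟨P, hP⟩ : ∃ P, P = δ * B := ⟨_, rfl⟩
  have hP2 : 2 ≤ P := hP ▸ two_le_mul' hB hδ
  have hBP : B ≤ P := by rw [hP]; exact Nat.le_mul_of_pos_left _ hδ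
  have hK1' := hK1 B δ hB hδ
  simp only at hK1'
  rw [← hP] at ha hK1'
  have ha1 : 1 ≤ a := (Nat.one_le_pow _ _ (by omega)).trans ha
  have hmono : ∀ j, j ≤ n.factorial * D + n.factorial ^ 2 + 1 + C1 → P ^ j ≤ a := fun j hj =>
    (Nat.pow_le_pow_right (by omega) hj).trans ha
  refine ⟨ha1, (Nat.pow_le_pow_left hBP C1).trans (hmono _ (by omega)), ?_⟩
  intro e q he1 heF hq1 hqB
  have haR : (1 : ℝ) ≤ a := by exact_mod_cast ha1
  obtain ⟨r, hr⟩ : ∃ r : ℝ, r = (a : ℝ) ^ ((1 : ℝ) / e) := ⟨_, rfl⟩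
  rw [← hr]
  have hPD : ((P : ℝ) ^ D) ≤ r := by
    have h1 : ((P : ℝ) ^ D) ^ e ≤ a := by
      rw [← pow_mul]
      have : P ^ (D * e) ≤ a := hmono _ (by
        have : D * e ≤ n.factorial * D := by
          rw [mul_comm]
          exact Nat.mul_le_mul_right _ heF
        omega)
      exact_mod_cast this
    have h2 := Real.pow_rpow_inv_natCast (x := (P : ℝ) ^ D) (n := e) (by positivity) (by omega)
    rw [← h2, hr, one_div]
    exact Real.rpow_le_rpow (by positivity) h1 (by positivity)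
  have hr0 : 0 ≤ r := le_trans (by positivity) hPD
  have hqe : (1 : ℝ) ≤ ((q * e ^ 2 : ℕ) : ℝ) := by
    have : 1 ≤ q * e ^ 2 := Nat.mul_pos hq1 (pow_pos he1 2)
    exact_mod_cast this
  have hX : (P : ℝ) ^ D ≤ ((q * e ^ 2 : ℕ) : ℝ) * r :=
    hPD.trans (le_mul_of_one_le_left hr0 hqe)
  have hnat : ∀ x : ℕ, x ≤ P ^ D → (x : ℝ) ≤ ((q * e ^ 2 : ℕ) : ℝ) * r := fun x hx => by
    have : (x : ℝ) ≤ (P : ℝ) ^ D := by exact_mod_cast hx
    exact this.trans hX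
  refine ⟨?_, ?_, ?_, ?_, ?_⟩
  · have h := hnat ((2 * R1G n m g B δ) ^ c) (by
      calc (2 * R1G n m g B δ) ^ c ≤ (P ^ K1) ^ c := Nat.pow_le_pow_left hK1' c
        _ = P ^ (K1 * c) := (pow_mul _ _ _).symm
        _ ≤ P ^ D := Nat.pow_le_pow_right (by omega) hD1)
    exact_mod_cast h
  · have h := hnat (4 * R1G n m g B δ) (by
      calc 4 * R1G n m g B δ = 2 * (2 * R1G n m g B δ) := by ring
        _ ≤ P * P ^ K1 := Nat.mul_le_mul hP2 hK1'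
        _ = P ^ (K1 + 1) := (pow_succ' _ _).symm
        _ ≤ P ^ D := Nat.pow_le_pow_right (by omega) hD2)
    exact_mod_cast h
  · exact hnat K ((Nat.lt_two_pow_self).le.trans ((Nat.pow_le_pow_left hP2 K).trans
      (Nat.pow_le_pow_right (by omega) hD3)))
  · have h := hnat 1 (Nat.one_le_pow _ _ (by omega))
    exact_mod_cast h
  · have hra : r ≤ a := by
      rw [hr]
      calc (a : ℝ) ^ ((1 : ℝ) / e) ≤ (a : ℝ) ^ (1 : ℝ) := by
            apply Real.rpow_le_rpow_of_exponent_le haR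
            rw [div_le_one (by positivity)]
            exact_mod_cast he1
        _ = a := Real.rpow_one _
    have hq : q ≤ a := hqB.trans (hBP.trans (by
      have := hmono 1 (by omega)
      rwa [pow_one] at this))
    have he : e ^ 2 ≤ a := by
      calc e ^ 2 ≤ n.factorial ^ 2 := Nat.pow_le_pow_left heF 2
        _ ≤ 2 ^ (n.factorial ^ 2) := (Nat.lt_two_pow_self).le
        _ ≤ P ^ (n.factorial ^ 2) := Nat.pow_le_pow_left hP2 _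
        _ ≤ a := hmono _ (by omega)
    have hqe' : ((q * e ^ 2 : ℕ) : ℝ) ≤ (a : ℝ) * a := by
      have : q * e ^ 2 ≤ a * a := Nat.mul_le_mul hq he
      exact_mod_cast this
    calc ((q * e ^ 2 : ℕ) : ℝ) * r ≤ ((a : ℝ) * a) * a := by gcongr
      _ = (a : ℝ) ^ 3 := by ring

end Pool.Agent.H21.AG
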