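import Pool.Agent.H21.AG.GC
import Pool.Agent.H97.FB.ANQ

/-! # [H21 AG GQ] The Puiseux data of the composite polynomial of a tuple -/

namespace Pool.Agent.H21.AG

open Finset Polynomial Pool.Agent.H72.ES Pool.Agent.H87.SA2 Pool.Agent.H97.FB

variable {n m g Δ : ℕ} {f : ℤ[X][X]} {δ : Fin g → ℕ}

theorem RB_mono {h : ℤ[X][X]} (pd : PData h n) {d d' : ℕ} (hd : d ≤ d') : RB pd m d ≤ RB pd m d' := by
  unfold RB
  have h1 := pd.R_ge
  have h2 : (d : ℝ) ≤ d' := by exact_mod_cast hd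
  gcongr

theorem RB_two {h : ℤ[X][X]} (pd : PData h n) {d : ℕ} (hd : 1 ≤ d) : 2 ≤ RB pd m d := by
  unfold RB
  have hR2 := pd.R_ge
  have e1 : (1 : ℝ) ≤ 2 ^ (m + 3) := one_le_pow₀ (by norm_num)
  have e2 : (1 : ℝ) ≤ d := by exact_mod_cast hd
  have e3 : (1 : ℝ) ≤ ((pd.q * pd.e ^ 2 : ℕ) : ℝ) := by
    have h1 := pd.e_pos
    have h2 := pd.q_pos
    exact_mod_cast Nat.one_le_iff_ne_zero.2 (by positivity)
  calc (2 : ℝ) = 1 * 1 * 1 * 2 := by norm_num
    _ ≤ 2 ^ (m + 3) * d * ((pd.q * pd.e ^ 2 : ℕ) : ℝ) * pd.R := by gcongr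

/-- the Puiseux data of the composite polynomial -/
noncomputable def pdG (pd : PData (rv n m f) n) (S : ∀ u, WdP pd.e pd.q (δ u)) (lam : Fin g → ℕ)
    (R1 : ℝ) (hn : 1 ≤ n) (hf : f.Monic) (hd : f.natDegree = n)
    (hc : ∀ i, (f.coeff i).natDegree ≤ m * (n - i)) (hδ : ∀ u, 1 ≤ δ u) (hΔ : ∀ u, δ u ≤ Δ)
    (hΔ1 : 1 ≤ Δ) (hR : (1 + ∑ u, (lam u : ℝ)) * RB pd m Δ ≤ R1)
    (hinj : Function.Injective (yG pd S lam)) :
    PData (FG n m f δ lam) (n ^ g) where
  e := pd.e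
  q := pd.q * pd.e ^ 2
  e_pos := pd.e_pos
  q_pos := by
    have h1 := pd.e_pos
    have h2 := pd.q_pos
    exact Nat.one_le_iff_ne_zero.2 (by positivity)
  x := fun s => yG pd S lam (finFunctionFinEquiv.symm s)
  x_inj := hinj.comp finFunctionFinEquiv.symm.injective
  split := by
    unfold FG
    rw [cpG_split (lam := lam) (tq pd.e (pd.q * pd.e ^ 2)) hn
      (fun u => rv_monic (shF_monic (δ u) hf) (shF_natDegree (δ u) hf hd))
      (fun u => rv_natDegree (shF_monic (δ u) hf) (shF_natDegree (δ u) hf hd))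
      (fun u => x2P pd m (S u))
      (fun u j => x2P_root pd (S u) hf hd hc j) hinj]
    exact (Equiv.prod_comp finFunctionFinEquiv.symm
      (fun p : Fin g → Fin n => (X - C (yG pd S lam p) : (PowerSeries ℂ)[X]))).symm
  integral := fun s k => by
    unfold yG
    rw [map_sum]
    refine IsIntegral.sum _ fun u _ => ?_
    have h2 : (lam u : PowerSeries ℂ) = PowerSeries.C (lam u : ℂ) := by simp
    rw [h2, PowerSeries.coeff_C_mul]
    have hlam : IsIntegral ℤ (lam u : ℂ) := by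
      have := isIntegral_algebraMap (R := ℤ) (A := ℂ) (x := (lam u : ℤ))
      simpa using this
    exact hlam.mul (x2P_int pd (S u) _ k)
  R := R1
  R_ge := by
    have h1 : (2 : ℝ) ≤ RB pd m Δ := RB_two pd hΔ1
    have h2 : (0 : ℝ) ≤ ∑ u, (lam u : ℝ) := sum_nonneg fun u _ => Nat.cast_nonneg _
    nlinarith
  growth := fun s k => by
    have hlam : (0 : ℝ) ≤ ∑ u, (lam u : ℝ) := sum_nonneg fun u _ => Nat.cast_nonneg _
    have hRB : (0 : ℝ) ≤ RB pd m Δ := by linarith [RB_two (m := m) pd hΔ1]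
    unfold yG
    rw [map_sum]
    calc ‖∑ u, PowerSeries.coeff k ((lam u : PowerSeries ℂ) * x2P pd m (S u)
          (finFunctionFinEquiv.symm s u))‖
        ≤ ∑ u, ‖PowerSeries.coeff k ((lam u : PowerSeries ℂ) * x2P pd m (S u)
          (finFunctionFinEquiv.symm s u))‖ := norm_sum_le _ _
      _ ≤ ∑ u, (lam u : ℝ) * RB pd m Δ ^ (k + 1) := by
          refine sum_le_sum fun u _ => ?_
          have h2 : (lam u : PowerSeries ℂ) = PowerSeries.C (lam u : ℂ) := by simp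
          rw [h2, PowerSeries.coeff_C_mul, norm_mul, Complex.norm_natCast]
          refine mul_le_mul_of_nonneg_left ?_ (Nat.cast_nonneg _)
          refine (x2P_growth pd (S u) (hδ u) _ k).trans ?_
          refine pow_le_pow_left₀ ?_ (RB_mono pd (hΔ u)) _
          linarith [RB_two (m := m) pd (hδ u)]
      _ = (∑ u, (lam u : ℝ)) * RB pd m Δ ^ (k + 1) := (sum_mul _ _ _).symm
      _ ≤ (1 + ∑ u, (lam u : ℝ)) ^ (k + 1) * RB pd m Δ ^ (k + 1) := by
          refine mul_le_mul_of_nonneg_right ?_ (by positivity)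
          refine le_trans (by linarith) (le_self_pow₀ (by linarith) (by omega))
      _ = ((1 + ∑ u, (lam u : ℝ)) * RB pd m Δ) ^ (k + 1) := (mul_pow _ _ _).symm
      _ ≤ R1 ^ (k + 1) := pow_le_pow_left₀ (by positivity) hR _

end Pool.Agent.H21.AG
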