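import Pool.Agent.H21.AG.GD
import Pool.Agent.H97.FB.ANX

/-! # [H21 AG GX] The vectors of indices attached to the conjugates of the anchor (helper21) -/

namespace Pool.Agent.H21.AG

open Finset Polynomial Pool.Agent.H87.SA2 Pool.Agent.H8.AW Pool.Agent.H8.AS Pool.Agent.H52.AC
  Pool.Agent.H87.AX Pool.Agent.H97.FB Pool.Agent.H97.FC

variable {f : ℤ[X][X]} {d m N n g : ℕ} {pd : PData f d} {X0 : ℝ}

open Classical in
theorem exists_diagG {w la s0 : ℕ} {k : Type} [Field k] [NumberField k]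
    (hX : 1 ≤ X0) (T : TwR pd m N X0 w la s0 k) {Dl κ e M : ℕ} {R : ℝ}
    (an : AnchX (Module.finrank ℚ k) Dl κ e M X0 R) (q : an.I ≃ (k →+* ℂ))
    (hq : ∀ i j, PowerSeries.coeff j (an.zs i) = (X0 : ℂ) ^ j * q i (T.ζ j))
    (hi0 : q an.i0 = Complex.ofRealHom.comp T.ι)
    {Θ : Fin g → Fin n → ℂ} {lam : Fin g → ℕ} {A : ℕ} (hA : A ≠ 0)
    (hΘ : ∀ u l, Θ u l ∈ AA)
    (hinj : Function.Injective fun p : Fin g → Fin n => ∑ u, (lam u : ℂ) * Θ u (p u))
    (p : k[X]) (hp : p.Monic) (hdeg : p.natDegree ≤ n)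
    (hroot : ∀ l, (p.map (Complex.ofRealHom.comp T.ι)).eval
      ((A : ℂ) * ∑ u, (lam u : ℂ) * Θ u l) = 0) : Nonempty (DiagM an Θ) := by
  have hX0 : (X0 : ℂ) ≠ 0 := by
    have : X0 ≠ 0 := by linarith
    exact_mod_cast this
  have hAC : (A : ℂ) ≠ 0 := by exact_mod_cast hA
  let P : an.I → Finset (Fin g → Fin n) := fun i => univ.filter fun x =>
    (p.map (q i)).eval ((A : ℂ) * ∑ u, (lam u : ℂ) * Θ u (x u)) = 0
  have hP : ∀ i x, x ∈ P i ↔
      (p.map (q i)).eval ((A : ℂ) * ∑ u, (lam u : ℂ) * Θ u (x u)) = 0 := by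
    intro i x
    simp [P]
  refine ⟨⟨?_, P, ?_, ?_, ?_⟩⟩
  · rw [Fintype.card_congr q, NumberField.Embeddings.card]
  · intro i
    have h1 : (P i).card ≤ (p.map (q i)).roots.toFinset.card := by
      refine Finset.card_le_card_of_injOn
        (fun x => (A : ℂ) * ∑ u, (lam u : ℂ) * Θ u (x u)) ?_ ?_
      · intro x hx
        have h2 : (p.map (q i)).eval ((A : ℂ) * ∑ u, (lam u : ℂ) * Θ u (x u)) = 0 :=
          (hP i x).1 hx
        have h3 : (A : ℂ) * ∑ u, (lam u : ℂ) * Θ u (x u) ∈ (p.map (q i)).roots.toFinset := by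
          rw [Multiset.mem_toFinset, mem_roots ((hp.map (q i)).ne_zero)]
          exact h2
        exact h3
      · intro x _ y _ hxy
        exact hinj (mul_left_cancel₀ hAC hxy)
    refine h1.trans ((Multiset.toFinset_card_le _).trans ((card_roots' _).trans ?_))
    rw [hp.natDegree_map]
    exact hdeg
  · intro l
    rw [hP, hi0]
    exact hroot l
  · intro σ
    let q0 : an.I → (k →+* AA) := fun i => (q i).codRestrict AA.toSubring (fun z => kap_mem (q i) z)
    have hq0 : ∀ i z, ((q0 i z : AA) : ℂ) = q i z := fun i z => rfl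
    let π1 : an.I → an.I := fun i => q.symm (σ.comp (q0 i))
    have hπ1 : ∀ i z, q (π1 i) z = σ (q0 i z) := by
      intro i z
      simp [π1]
    have hu : ∀ (i : an.I) (j : ℕ), (((1 / X0 : ℝ)) : ℂ) ^ j * PowerSeries.coeff j (an.zs i) =
        q i (T.ζ j) := by
      intro i j
      rw [hq, ← mul_assoc, ← mul_pow]
      have : ((1 / X0 : ℝ) : ℂ) * (X0 : ℂ) = 1 := by
        push_cast
        field_simp
      rw [this, one_pow, one_mul]
    refine ⟨π1, ?_, ?_⟩
    · intro i j a ha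
      rw [hu] at ha ⊢
      rw [hπ1]
      congr 1
      exact Subtype.ext ha
    · intro i l j hll hj
      rw [hP] at hll ⊢
      have hex : ∀ u, ∃ a : AA, (a : ℂ) = Θ u (l u) := fun u => ⟨⟨_, hΘ u (l u)⟩, rfl⟩
      choose a ha using hex
      have ea : ∀ u, σ (a u) = Θ u (j u) := fun u => hj u (a u) (ha u)
      have h5 : (p.map (q0 i)).eval ((A : AA) * ∑ u, (lam u : AA) * a u) = 0 := by
        apply (algebraMap AA ℂ).injective
        rw [map_zero, ← hll, ← Polynomial.eval₂_at_apply, eval_map, eval₂_map]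
        have e1 : (algebraMap AA ℂ).comp (q0 i) = q i := RingHom.ext fun z => rfl
        have e2 : (algebraMap AA ℂ) ((A : AA) * ∑ u, (lam u : AA) * a u) =
            (A : ℂ) * ∑ u, (lam u : ℂ) * Θ u (l u) := by
          rw [map_mul, map_sum, map_natCast]
          congr 1
          refine sum_congr rfl fun u _ => ?_
          rw [map_mul, map_natCast, ← ha u]
          rfl
        rw [e1, e2]
      have h6 := congrArg σ h5
      rw [map_zero, ← Polynomial.eval₂_at_apply, eval₂_map, map_mul, map_sum, map_natCast] at h6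
      rw [eval_map]
      have e3 : σ.comp (q0 i) = q (π1 i) := RingHom.ext fun z => (hπ1 i z).symm
      rw [← e3]
      refine Eq.trans ?_ h6
      congr 2
      refine sum_congr rfl fun u _ => ?_
      rw [map_mul, map_natCast, ea]

end Pool.Agent.H21.AG
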