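import Pool.Agent.H21.AG.GQ
import Pool.Agent.H97.FB.ANS

/-! # [H21 AG GZ] The diagonal is stable (tuples; proof as in `Pool/Agent/H97/FB/ANZ.lean`) -/

namespace Pool.Agent.H21.AG

open Finset Polynomial Pool.Agent.H72.ES Pool.Agent.H87.SA2 Pool.Agent.H52.AC Pool.Agent.H97.FB

variable {n m g Δ : ℕ} {f : ℤ[X][X]} {δ : Fin g → ℕ}

private theorem sg_sum (σ : AA →+* ℂ) {ι : Type} (s : Finset ι) (F G : ι → PowerSeries ℂ)
    (h : ∀ i ∈ s, SG σ (F i) (G i)) : SG σ (∑ i ∈ s, F i) (∑ i ∈ s, G i) := by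
  classical
  induction s using Finset.induction_on with
  | empty =>
    rw [sum_empty, sum_empty]
    have h0 := SG.int σ 0
    rw [Int.cast_zero] at h0
    exact h0
  | insert a s ha ih =>
    rw [sum_insert ha, sum_insert ha]
    exact (h a (mem_insert_self _ _)).add (ih fun i hi => h i (mem_insert_of_mem hi))

theorem diag_stabG (pd : PData (rv n m f) n) (S : ∀ u, WdP pd.e pd.q (δ u)) (lam : Fin g → ℕ)
    (R1 : ℝ) (hn : 1 ≤ n) (hf : f.Monic) (hd : f.natDegree = n)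
    (hc : ∀ i, (f.coeff i).natDegree ≤ m * (n - i)) (hδ : ∀ u, 1 ≤ δ u) (hΔ : ∀ u, δ u ≤ Δ)
    (hΔ1 : 1 ≤ Δ) (hR : (1 + ∑ u, (lam u : ℝ)) * RB pd m Δ ≤ R1)
    (hinj : Function.Injective (yG pd S lam))
    {a : ℕ} {X0 : ℝ} (hX : 0 < X0)
    (hpow : X0 ^ pd.e = (((pd.q * pd.e ^ 2) ^ pd.e * a : ℕ) : ℝ))
    (σ : AA →+* ℂ) (π : Equiv.Perm (Fin (n ^ g)))
    (hπ : ∀ (i : Fin (n ^ g)) (k : ℕ) (b : AA),
      (b : ℂ) = xu (pdG pd S lam R1 hn hf hd hc hδ hΔ hΔ1 hR hinj) X0 i k →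
      σ b = xu (pdG pd S lam R1 hn hf hd hc hδ hΔ hΔ1 hR hinj) X0 (π i) k) (i : Fin n) :
    ∃ i' : Fin n, π (finFunctionFinEquiv fun _ => i) = finFunctionFinEquiv fun _ => i' := by
  have hXC : (X0 : ℂ) ≠ 0 := by
    exact_mod_cast hX.ne'
  have hpowC : (X0 : ℂ) ^ pd.e = (((pd.q * pd.e ^ 2) ^ pd.e * a : ℕ) : ℂ) := by
    exact_mod_cast congrArg (fun t : ℝ => (t : ℂ)) hpow
  have hA : (X0 : ℂ) ∈ AA := by
    rw [mem_algebraicClosure_iff]
    refine IsAlgebraic.of_pow pd.e_pos ?_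
    rw [hpowC]
    exact isAlgebraic_natCast _
  obtain ⟨A, hAd⟩ : ∃ A : AA, (A : ℂ) = X0 := ⟨⟨_, hA⟩, rfl⟩
  have hAa : algebraMap AA ℂ A = X0 := hAd
  have hApow : A ^ pd.e = (((pd.q * pd.e ^ 2) ^ pd.e * a : ℕ) : AA) := by
    apply (algebraMap AA ℂ).injective
    rw [map_pow, hAa, hpowC, map_natCast]
  have hA0 : A ≠ 0 := by
    intro h
    rw [h, map_zero] at hAa
    exact hXC hAa.symm
  obtain ⟨ζ, hζd⟩ : ∃ ζ : ℂ, ζ = σ A / X0 := ⟨_, rfl⟩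
  have hσA : σ A = ζ * X0 := by
    rw [hζd, div_mul_cancel₀ _ hXC]
  have hζ0 : ζ ≠ 0 := by
    intro h
    rw [h, zero_mul] at hσA
    exact hA0 ((map_eq_zero σ).1 hσA)
  have hζ : ζ ^ pd.e = 1 := by
    rw [hζd, div_pow, ← map_pow, hApow, map_natCast, hpowC]
    refine div_self ?_
    rw [← hpowC]
    exact pow_ne_zero _ hXC
  obtain ⟨μ, hμ⟩ := x_conj pd σ hζ
  obtain ⟨dg, hdg⟩ : ∃ dg : Fin n → Fin g → Fin n, dg = fun l _ => l := ⟨_, rfl⟩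
  have hSG : SG σ (yG pd S lam (dg i)) (PowerSeries.rescale ζ (yG pd S lam (dg (μ i)))) := by
    unfold yG
    rw [map_sum]
    refine sg_sum σ univ _ _ fun u _ => ?_
    rw [map_mul, map_natCast]
    have h1 := SG.int σ (lam u : ℤ)
    rw [Int.cast_natCast] at h1
    refine h1.mul ?_
    rw [hdg]
    exact x2P_conj pd (S u) hζ (hμ i)
  refine ⟨μ i, ?_⟩
  have e0 : ∀ l, (fun _ => l : Fin g → Fin n) = dg l := fun l => by rw [hdg]
  rw [e0, e0]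
  have hcoef : ∀ k, PowerSeries.coeff k
      (yG pd S lam (finFunctionFinEquiv.symm (π (finFunctionFinEquiv (dg i))))) =
      PowerSeries.coeff k (yG pd S lam (dg (μ i))) := by
    intro k
    obtain ⟨c, hc'⟩ : ∃ c : AA, (c : ℂ) = PowerSeries.coeff k (yG pd S lam (dg i)) :=
      ⟨⟨_, hSG.alg k⟩, rfl⟩
    have h1 := hSG.cj k c hc'
    rw [PowerSeries.coeff_rescale] at h1
    have h2 := hπ (finFunctionFinEquiv (dg i)) k (A⁻¹ ^ k * c) (by
      have h3 : algebraMap AA ℂ (A⁻¹ ^ k * c) = (X0 : ℂ)⁻¹ ^ k *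
          PowerSeries.coeff k (yG pd S lam (dg i)) := by
        rw [map_mul, map_pow, map_inv₀, hAa, ← hc']
        rfl
      refine (show ((A⁻¹ ^ k * c : AA) : ℂ) = algebraMap AA ℂ (A⁻¹ ^ k * c) from rfl).trans ?_
      rw [h3]
      unfold xu
      rw [one_div, Complex.ofReal_inv]
      congr 2
      change yG pd S lam (dg i) = yG pd S lam (finFunctionFinEquiv.symm (finFunctionFinEquiv (dg i)))
      rw [Equiv.symm_apply_apply])
    have h4 : xu (pdG pd S lam R1 hn hf hd hc hδ hΔ hΔ1 hR hinj) X0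
        (π (finFunctionFinEquiv (dg i))) k =
        (X0 : ℂ)⁻¹ ^ k * PowerSeries.coeff k
          (yG pd S lam (finFunctionFinEquiv.symm (π (finFunctionFinEquiv (dg i))))) := by
      unfold xu
      rw [one_div, Complex.ofReal_inv]
      rfl
    rw [h4, map_mul, map_pow, map_inv₀, h1, hσA, mul_inv, mul_pow] at h2
    have h5 : (X0 : ℂ)⁻¹ ^ k ≠ 0 := pow_ne_zero _ (inv_ne_zero hXC)
    apply mul_left_cancel₀ h5
    rw [← h2]
    have h6 : ζ⁻¹ ^ k * ζ ^ k = 1 := by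
      rw [← mul_pow, inv_mul_cancel₀ hζ0, one_pow]
    calc ζ⁻¹ ^ k * (X0 : ℂ)⁻¹ ^ k * (ζ ^ k * PowerSeries.coeff k (yG pd S lam (dg (μ i))))
        = (ζ⁻¹ ^ k * ζ ^ k) * ((X0 : ℂ)⁻¹ ^ k *
          PowerSeries.coeff k (yG pd S lam (dg (μ i)))) := by ring
      _ = _ := by rw [h6, one_mul]
  have h7 := hinj (PowerSeries.ext hcoef)
  rw [Equiv.symm_apply_eq] at h7
  exact h7

end Pool.Agent.H21.AG
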